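import Mathlib
import Pool.Graph.R_pool_sql_team_39128cda.H.MP_8dd142_lc.C
import Pool.Agent.H83.Diamond

/-!
# MP_8dd142_lc: Tukey non-maximality need not give finitely generated Tukey reductions

No hypothesis is assumed. Some notion of forcing forces Jensen's diamond and preserves `ω₁`
(first part, in the forcing language of `Pool.Agent.Helper220.ForceCH`), and diamond gives an
ultrafilter that is not of maximum Tukey type and does not have finitely generated Tukey
reductions (second part).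
-/

set_option autoImplicit false

namespace Pool.Agent.Results.MP_8dd142_lc.NotProvable

open Set
open Pool.Agent.Helper220.ForceCH (Om OmegaOnePreserved DiamondHolds)
open Pool.Agent.H83.Diamond (Club Diamond)

/-- Tukey reducibility of directed preorders: a map sending every unbounded subset to an
unbounded subset -/
def TukeyLE {α β : Type} (r : α → α → Prop) (s : β → β → Prop) : Prop :=
  ∃ f : α → β, ∀ S : Set α, (¬ ∃ a, ∀ x ∈ S, r x a) → ¬ ∃ b, ∀ y ∈ f '' S, s y b

/-- `(U, ⊇)`: `B` is above `A` when `A ⊇ B` -/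
def Incl (U : Ultrafilter ℕ) (A B : {A : Set ℕ // A ∈ U}) : Prop := B.1 ⊆ A.1

/-- `([𝔠]^{<ω}, ⊆)` -/
def FinSub (A B : Finset ℝ) : Prop := A ⊆ B

/-- `C` is a cofinal subset of `U` (a filter base of `U`) -/
def Cofinal (U : Ultrafilter ℕ) (C : Set (Set ℕ)) : Prop :=
  (∀ X ∈ C, X ∈ U) ∧ ∀ X ∈ U, ∃ Y ∈ C, Y ⊆ X

/-- finitely generated Tukey reductions: every monotone cofinal map `f : U → V` agrees on some
cofinal `C ⊆ U` with `X ↦ ⋃ₖ g (X ∩ k)` for some monotone `g : [ω]^{<ω} → [ω]^{<ω}` -/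
def FinitelyGenerated (U : Ultrafilter ℕ) : Prop :=
  ∀ (V : Ultrafilter ℕ) (f : Set ℕ → Set ℕ), (∀ X ∈ U, f X ∈ V) →
    (∀ X ∈ U, ∀ Y ∈ U, Y ⊆ X → f Y ⊆ f X) → (∀ C, Cofinal U C → Cofinal V (f '' C)) →
      ∃ C, Cofinal U C ∧ ∃ g : Finset ℕ → Finset ℕ, (∀ s t, s ⊆ t → g s ⊆ g t) ∧
        ∀ X ∈ C, f X = {m | ∃ (k : ℕ) (s : Finset ℕ), ↑s = X ∩ Iio k ∧ m ∈ g s}

/-- No hypothesis is assumed. (1) Some notion of forcing `P` forces Jensen's diamond principle and
preserves `ω₁`. (2) Diamond implies that there is a nonprincipal ultrafilter `U` on `ℕ` with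
`U <_T U_top` (`U` is Tukey reducible to `([𝔠]^{<ω}, ⊆)`, and not conversely) which does not have
finitely generated Tukey reductions. -/
theorem result :
    (∃ (P : Type) (_ : Preorder P), Nonempty P ∧ ∀ p : P,
      p ∈ OmegaOnePreserved P ∧ p ∈ DiamondHolds P) ∧
    (Diamond → ∃ U : Ultrafilter ℕ, (∀ n, {n} ∉ U) ∧ TukeyLE (Incl U) FinSub ∧
      ¬ TukeyLE FinSub (Incl U) ∧ ¬ FinitelyGenerated U) :=
  ⟨Pool.Agent.H83.Diamond.forced, fun h =>
    Pool.Agent.H.MP_8dd142_lc.main (Pool.Agent.H83.Diamond.dia_of_diamond h)⟩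

end Pool.Agent.Results.MP_8dd142_lc.NotProvable
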